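import Mathlib

set_option autoImplicit false

namespace Pool.Agent.H454Z.Kac

open MvPolynomial

variable {k : Type} [Field k]

/-- chain rule along a polynomial curve -/
theorem deriv_aeval {σ : Type} [Fintype σ] [DecidableEq σ] (q : σ → Polynomial k)
    (f : MvPolynomial σ k) :
    Polynomial.derivative (aeval q f) =
      ∑ i, aeval q (pderiv i f) * Polynomial.derivative (q i) := by
  induction f using MvPolynomial.induction_on with
  | C a => simp
  | add f g hf hg => simp [hf, hg, add_mul, Finset.sum_add_distrib]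
  | mul_X f n hf =>
    have : ∀ i, aeval q (pderiv i (f * X n)) * Polynomial.derivative (q i) =
        aeval q (pderiv i f) * Polynomial.derivative (q i) * q n +
          (if n = i then aeval q f * Polynomial.derivative (q i) else 0) := by
      intro i
      rw [Derivation.leibniz, pderiv_X]
      by_cases h : n = i
      · subst h
        simp
        ring
      · simp [h]
        ring
    simp only [this, Finset.sum_add_distrib, Finset.sum_ite_eq, Finset.mem_univ, if_true]
    rw [← Finset.sum_mul, ← hf]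
    simp

theorem eval_aeval {σ : Type} (q : σ → Polynomial k) (f : MvPolynomial σ k) (t : k) :
    Polynomial.eval t (aeval q f) = eval (fun i => Polynomial.eval t (q i)) f := by
  induction f using MvPolynomial.induction_on with
  | C a => simp
  | add f g hf hg => simp [hf, hg]
  | mul_X f n hf => simp [hf]

/-- the group of matrices with rows (t^2, t u, v), (0, t, u), (0, 0, 1) -/
def grp (k : Type) [Field k] : Subgroup (Matrix.GeneralLinearGroup (Fin 3) k) where
  carrier := {g | (g : Matrix (Fin 3) (Fin 3) k) 0 0 = ((g : Matrix (Fin 3) (Fin 3) k) 1 1) ^ 2 ∧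
    (g : Matrix (Fin 3) (Fin 3) k) 0 1 =
      (g : Matrix (Fin 3) (Fin 3) k) 1 1 * (g : Matrix (Fin 3) (Fin 3) k) 1 2 ∧
    (g : Matrix (Fin 3) (Fin 3) k) 1 0 = 0 ∧ (g : Matrix (Fin 3) (Fin 3) k) 2 0 = 0 ∧
    (g : Matrix (Fin 3) (Fin 3) k) 2 1 = 0 ∧ (g : Matrix (Fin 3) (Fin 3) k) 2 2 = 1}
  one_mem' := by simp
  mul_mem' := by
    rintro a b ⟨a1, a2, a3, a4, a5, a6⟩ ⟨b1, b2, b3, b4, b5, b6⟩
    simp only [Set.mem_ofPred_eq, Units.val_mul, Matrix.mul_apply, Fin.sum_univ_three,
      a1, a2, a3, a4, a5, a6, b1, b2, b3, b4, b5, b6]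
    refine ⟨by ring, by ring, by ring, by ring, by ring, by ring⟩
  inv_mem' := by
    rintro a ⟨a1, a2, a3, a4, a5, a6⟩
    have h : (a : Matrix (Fin 3) (Fin 3) k) * ((a⁻¹ : Matrix.GeneralLinearGroup (Fin 3) k) :
        Matrix (Fin 3) (Fin 3) k) = 1 := by
      rw [← Units.val_mul, mul_inv_cancel, Units.val_one]
    simp only [Set.mem_ofPred_eq]
    generalize ((a⁻¹ : Matrix.GeneralLinearGroup (Fin 3) k) : Matrix (Fin 3) (Fin 3) k) = B at h ⊢
    have e := fun i j => congrFun (congrFun h i) j
    have e00 := e 0 0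
    have e01 := e 0 1
    have e10 := e 1 0
    have e11 := e 1 1
    have e12 := e 1 2
    have e20 := e 2 0
    have e21 := e 2 1
    have e22 := e 2 2
    simp [Matrix.mul_apply, Fin.sum_univ_three, a1, a2, a3, a4, a5, a6] at e00 e01 e10 e11 e12 e20 e21 e22
    generalize (a : Matrix (Fin 3) (Fin 3) k) 1 1 = t at *
    generalize (a : Matrix (Fin 3) (Fin 3) k) 1 2 = u at *
    generalize (a : Matrix (Fin 3) (Fin 3) k) 0 2 = v at *
    rw [e20] at e00 e10
    rw [e21] at e01 e11
    rw [e22] at e12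
    have ht : t ≠ 0 := by
      rintro rfl
      simp at e11
    have h10 : B 1 0 = 0 := by
      have : t * B 1 0 = 0 := by linear_combination e10
      exact (mul_eq_zero.mp this).resolve_left ht
    rw [h10] at e00
    refine ⟨?_, ?_, h10, e20, e21, e22⟩
    · apply mul_left_cancel₀ (pow_ne_zero 2 ht)
      linear_combination e00 - (t * B 1 1 + 1) * e11
    · apply mul_left_cancel₀ (pow_ne_zero 2 ht)
      linear_combination e01 - t * B 1 1 * e12

/-- the tangent space of the Zariski closure at the identity -/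
def lie (k : Type) [Field k] : Set (Matrix (Fin 3) (Fin 3) k) :=
  {X : Matrix (Fin 3) (Fin 3) k |
        ∀ f : MvPolynomial (Fin 3 × Fin 3) k,
          (∀ g ∈ grp k, MvPolynomial.eval
              (fun ij : Fin 3 × Fin 3 => (g : Matrix (Fin 3) (Fin 3) k) ij.1 ij.2) f = 0) →
          ∑ ij : Fin 3 × Fin 3,
            MvPolynomial.eval
              (fun ij' : Fin 3 × Fin 3 => (1 : Matrix (Fin 3) (Fin 3) k) ij'.1 ij'.2)
              (MvPolynomial.pderiv ij f) * X ij.1 ij.2 = 0}

theorem lie_sub [CharP k 2] {A : Matrix (Fin 3) (Fin 3) k} (hA : A ∈ lie k) :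
    ∃ s u v : k, A = !![0, u, v; 0, s, u; 0, 0, 0] := by
  have h2 : (2 : k) = 0 := CharP.cast_eq_zero k 2
  have h00 := hA (X (0, 0) - X (1, 1) ^ 2) (by
    rintro g ⟨a1, a2, a3, a4, a5, a6⟩
    simp [a1])
  have h01 := hA (X (0, 1) - X (1, 1) * X (1, 2)) (by
    rintro g ⟨a1, a2, a3, a4, a5, a6⟩
    simp [a2])
  have h10 := hA (X (1, 0)) (by
    rintro g ⟨a1, a2, a3, a4, a5, a6⟩
    simp [a3])
  have h20 := hA (X (2, 0)) (by
    rintro g ⟨a1, a2, a3, a4, a5, a6⟩
    simp [a4])
  have h21 := hA (X (2, 1)) (by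
    rintro g ⟨a1, a2, a3, a4, a5, a6⟩
    simp [a5])
  have h22 := hA (X (2, 2) - 1) (by
    rintro g ⟨a1, a2, a3, a4, a5, a6⟩
    simp [a6])
  simp [Fintype.sum_prod_type, Fin.sum_univ_three, pderiv_X, Pi.single_apply] at h00 h01 h10 h20 h21 h22
  refine ⟨A 1 1, A 1 2, A 0 2, ?_⟩
  ext i j
  fin_cases i <;> fin_cases j <;> simp [h10, h20, h21, h22]
  · linear_combination h00 + A 1 1 * h2
  · linear_combination h01

theorem sub_lie [CharP k 2] [Infinite k] (s u v : k) :
    (!![0, u, v; 0, s, u; 0, 0, 0] : Matrix (Fin 3) (Fin 3) k) ∈ lie k := by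
  have h2 : (2 : k) = 0 := CharP.cast_eq_zero k 2
  intro f hf
  let T : Polynomial k := 1 + Polynomial.C s * Polynomial.X
  let Q : Matrix (Fin 3) (Fin 3) (Polynomial k) :=
    !![T ^ 2, T * (Polynomial.C u * Polynomial.X), Polynomial.C v * Polynomial.X;
       0, T, Polynomial.C u * Polynomial.X; 0, 0, 1]
  let q : Fin 3 × Fin 3 → Polynomial k := fun ij => Q ij.1 ij.2
  have hP : aeval q f * T = 0 := by
    apply Polynomial.funext
    intro τ
    rw [Polynomial.eval_mul, Polynomial.eval_zero]
    by_cases ht : Polynomial.eval τ T = 0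
    · rw [ht, mul_zero]
    · have ht' : (1 + s * τ) ≠ 0 := by simpa [T] using ht
      let G : Matrix (Fin 3) (Fin 3) k :=
        !![(1 + s * τ) ^ 2, (1 + s * τ) * (u * τ), v * τ; 0, 1 + s * τ, u * τ; 0, 0, 1]
      have hdet : G.det ≠ 0 := by
        simp [G, Matrix.det_fin_three, ht']
      have hmem : Matrix.GeneralLinearGroup.mkOfDetNeZero G hdet ∈ grp k := by
        simp [grp, G]
      have := hf _ hmem
      rw [eval_aeval]
      have hq : (fun i => Polynomial.eval τ (q i)) = fun ij : Fin 3 × Fin 3 =>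
          ((Matrix.GeneralLinearGroup.mkOfDetNeZero G hdet : Matrix.GeneralLinearGroup (Fin 3) k) :
            Matrix (Fin 3) (Fin 3) k) ij.1 ij.2 := by
        funext ⟨i, j⟩
        fin_cases i <;> fin_cases j <;> simp [q, Q, G, T]
      rw [hq, this, zero_mul]
  have hT : T ≠ 0 := by
    intro h
    have := congrArg (Polynomial.eval 0) h
    simp [T] at this
  have hP0 : aeval q f = 0 := (mul_eq_zero.mp hP).resolve_right hT
  have hd := deriv_aeval q f
  rw [hP0, Polynomial.derivative_zero] at hd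
  have hd0 := congrArg (Polynomial.eval 0) hd
  rw [Polynomial.eval_zero, Polynomial.eval_finsetSum] at hd0
  refine Eq.trans ?_ hd0.symm
  refine Finset.sum_congr rfl ?_
  rintro ⟨i, j⟩ -
  rw [Polynomial.eval_mul, eval_aeval]
  have hq : (fun i => Polynomial.eval 0 (q i)) = fun ij' : Fin 3 × Fin 3 =>
      (1 : Matrix (Fin 3) (Fin 3) k) ij'.1 ij'.2 := by
    funext ⟨i, j⟩
    fin_cases i <;> fin_cases j <;> simp [q, Q, T]
  rw [hq]
  congr 1
  fin_cases i <;> fin_cases j <;> simp [q, Q, T, Polynomial.derivative_pow, h2]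

/-- the one-dimensional representation -/
noncomputable def rho (k : Type) [Field k] : Matrix (Fin 3) (Fin 3) k →ₗ[k] Module.End k k where
  toFun A := A 0 2 • (1 : Module.End k k)
  map_add' A B := by simp [add_smul]
  map_smul' c A := by simp [mul_smul]

/-- its p-character -/
def chi (k : Type) [Field k] : Matrix (Fin 3) (Fin 3) k →ₗ[k] k where
  toFun A := A 0 1 + A 0 2
  map_add' A B := by simp; ring
  map_smul' c A := by simp; ring

theorem rho_lie [CharP k 2] : ∀ A ∈ lie k, ∀ B ∈ lie k,
    rho k (A * B - B * A) = rho k A * rho k B - rho k B * rho k A := by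
  intro A hA B hB
  obtain ⟨s, u, v, rfl⟩ := lie_sub hA
  obtain ⟨s', u', v', rfl⟩ := lie_sub hB
  ext
  simp [rho, Matrix.mul_apply, Fin.sum_univ_three]
  ring

theorem rho_pchar [CharP k 2] : ∀ A ∈ lie k,
    rho k A ^ 2 - rho k (A ^ 2) = (chi k A) ^ 2 • (1 : Module.End k k) := by
  have h2 : (2 : k) = 0 := CharP.cast_eq_zero k 2
  intro A hA
  obtain ⟨s, u, v, rfl⟩ := lie_sub hA
  ext
  simp [rho, chi, pow_two, Matrix.mul_apply, Fin.sum_univ_three]
  linear_combination (-(u * u) - u * v) * h2

theorem finrank_lie [CharP k 2] [Infinite k] :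
    3 ≤ Module.finrank k (Submodule.span k (lie k)) := by
  let π : Matrix (Fin 3) (Fin 3) k →ₗ[k] (Fin 3 → k) :=
    { toFun := fun A => ![A 1 1, A 0 1, A 0 2]
      map_add' := by
        intro A B
        funext i
        fin_cases i <;> simp
      map_smul' := by
        intro c A
        funext i
        fin_cases i <;> simp }
  have hs : Function.Surjective (π.domRestrict (Submodule.span k (lie k))) := by
    intro w
    refine ⟨⟨_, Submodule.subset_span (sub_lie (w 0) (w 1) (w 2))⟩, ?_⟩
    funext i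
    fin_cases i <;> simp [π]
  have := LinearMap.finrank_le_finrank_of_surjective hs
  simpa using this

theorem finrank_cent [CharP k 2] [Infinite k] :
    Module.finrank k (Submodule.span k
      {A : Matrix (Fin 3) (Fin 3) k | A ∈ lie k ∧ ∀ B ∈ lie k, chi k (A * B - B * A) = 0}) ≤ 1 := by
  have hle : Submodule.span k
      {A : Matrix (Fin 3) (Fin 3) k | A ∈ lie k ∧ ∀ B ∈ lie k, chi k (A * B - B * A) = 0} ≤
      Submodule.span k {(!![0, 0, 1; 0, 0, 0; 0, 0, 0] : Matrix (Fin 3) (Fin 3) k)} := by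
    rw [Submodule.span_le]
    rintro A ⟨hA, hB⟩
    obtain ⟨s, u, v, rfl⟩ := lie_sub hA
    have h1 := hB _ (sub_lie 1 0 0)
    have h2 := hB _ (sub_lie 0 1 0)
    simp [chi, Matrix.mul_apply, Fin.sum_univ_three] at h1 h2
    subst h1
    subst h2
    rw [SetLike.mem_coe, Submodule.mem_span_singleton]
    refine ⟨v, ?_⟩
    ext i j
    fin_cases i <;> fin_cases j <;> simp
  refine (Submodule.finrank_mono hle).trans ?_
  exact (finrank_span_le_card _).trans (by simp)

end Pool.Agent.H454Z.Kac
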