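import Mathlib

set_option autoImplicit false

namespace Pool.Agent.H454Z.TTO

open Matrix

/-- entrywise smooth matrix valued maps -/
def Sm {E : Type} [NormedAddCommGroup E] [NormedSpace ℝ E] {ι : Type}
    (M : E → Matrix ι ι ℂ) : Prop := ∀ i j, ContDiff ℝ 1 (fun x => M x i j)

section smooth
variable {E : Type} [NormedAddCommGroup E] [NormedSpace ℝ E] {ι : Type} [Fintype ι] [DecidableEq ι]

omit [DecidableEq ι] in
theorem Sm.mul {M N : E → Matrix ι ι ℂ} (hM : Sm M) (hN : Sm N) : Sm (fun x => M x * N x) := by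
  intro i j
  simp only [Matrix.mul_apply]
  exact ContDiff.sum (fun k _ => (hM i k).mul (hN k j))

omit [Fintype ι] [DecidableEq ι] in
theorem Sm.add {M N : E → Matrix ι ι ℂ} (hM : Sm M) (hN : Sm N) : Sm (fun x => M x + N x) := by
  intro i j
  simp only [Matrix.add_apply]
  exact (hM i j).add (hN i j)

omit [Fintype ι] [DecidableEq ι] in
theorem Sm.const (A : Matrix ι ι ℂ) : Sm (fun _ : E => A) := fun _ _ => contDiff_const

omit [Fintype ι] [DecidableEq ι] in
theorem Sm.smul {M : E → Matrix ι ι ℂ} {c : E → ℂ} (hc : ContDiff ℝ 1 c) (hM : Sm M) :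
    Sm (fun x => c x • M x) := by
  intro i j
  simp only [Matrix.smul_apply, smul_eq_mul]
  exact hc.mul (hM i j)

theorem Sm.det {M : E → Matrix ι ι ℂ} (hM : Sm M) : ContDiff ℝ 1 (fun x => (M x).det) := by
  simp only [Matrix.det_apply']
  refine ContDiff.sum (fun σ _ => contDiff_const.mul ?_)
  exact contDiff_prod (fun i _ => hM _ _)

theorem Sm.adjugate {M : E → Matrix ι ι ℂ} (hM : Sm M) : Sm (fun x => (M x).adjugate) := by
  intro i j
  simp only [Matrix.adjugate_apply]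
  apply Sm.det
  intro a b
  by_cases h : a = j
  · subst h
    simp only [Matrix.updateRow_self]
    exact contDiff_const
  · simp only [Matrix.updateRow_ne h]
    exact hM a b

omit [DecidableEq ι] in
theorem Sm.trace {M : E → Matrix ι ι ℂ} (hM : Sm M) : ContDiff ℝ 1 (fun x => (M x).trace) := by
  simp only [Matrix.trace, Matrix.diag]
  exact ContDiff.sum (fun i _ => hM i i)

theorem Sm.pow {M : E → Matrix ι ι ℂ} (hM : Sm M) (n : ℕ) : Sm (fun x => M x ^ n) := by
  induction n with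
  | zero => simpa using Sm.const (E := E) (1 : Matrix ι ι ℂ)
  | succ n ih => simpa [pow_succ] using ih.mul hM

theorem Sm.aeval {M : E → Matrix ι ι ℂ} (hM : Sm M) (p : Polynomial ℂ) :
    Sm (fun x => Polynomial.aeval (M x) p) := by
  induction p using Polynomial.induction_on' with
  | add p q hp hq => simpa using hp.add hq
  | monomial n a =>
    simp only [Polynomial.aeval_monomial]
    exact (Sm.const _).mul (hM.pow n)

end smooth

section toeplitz
variable {r : ℕ} {m : Fin r → ℕ}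

/-- block diagonal matrices with Toeplitz blocks -/
def IsBT (M : Matrix (Σ i : Fin r, Fin (m i)) (Σ i : Fin r, Fin (m i)) ℂ) : Prop :=
  ∃ c : Fin r → ℤ → ℂ, M = Matrix.blockDiagonal' (fun i => Matrix.of (fun j k : Fin (m i) =>
    c i (((k : ℕ) : ℤ) - ((j : ℕ) : ℤ))))

theorem IsBT.add {M N : Matrix (Σ i : Fin r, Fin (m i)) (Σ i : Fin r, Fin (m i)) ℂ}
    (hM : IsBT M) (hN : IsBT N) : IsBT (M + N) := by
  obtain ⟨c, rfl⟩ := hM
  obtain ⟨d, rfl⟩ := hN
  refine ⟨fun i z => c i z + d i z, ?_⟩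
  rw [← Matrix.blockDiagonal'_add]
  rfl

theorem IsBT.smul {M : Matrix (Σ i : Fin r, Fin (m i)) (Σ i : Fin r, Fin (m i)) ℂ}
    (hM : IsBT M) (a : ℂ) : IsBT (a • M) := by
  obtain ⟨c, rfl⟩ := hM
  refine ⟨fun i z => a * c i z, ?_⟩
  rw [← Matrix.blockDiagonal'_smul]
  rfl

theorem IsBT.ct {M : Matrix (Σ i : Fin r, Fin (m i)) (Σ i : Fin r, Fin (m i)) ℂ}
    (hM : IsBT M) : IsBT Mᴴ := by
  obtain ⟨c, rfl⟩ := hM
  refine ⟨fun i z => star (c i (-z)), ?_⟩
  rw [Matrix.blockDiagonal'_conjTranspose]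
  congr 1
  funext i
  ext j k
  simp

/-- parametrisation by first rows and first columns -/
def BT (u v : (Σ i : Fin r, Fin (m i)) → ℂ) :
    Matrix (Σ i : Fin r, Fin (m i)) (Σ i : Fin r, Fin (m i)) ℂ :=
  Matrix.blockDiagonal' (fun i => Matrix.of (fun j k : Fin (m i) =>
    if (j : ℕ) ≤ k then u ⟨i, ⟨k - j, lt_of_le_of_lt (Nat.sub_le _ _) k.2⟩⟩
    else v ⟨i, ⟨j - k, lt_of_le_of_lt (Nat.sub_le _ _) j.2⟩⟩))

theorem IsBT.param {M : Matrix (Σ i : Fin r, Fin (m i)) (Σ i : Fin r, Fin (m i)) ℂ}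
    (hM : IsBT M) : ∃ u v, M = BT u v := by
  obtain ⟨c, rfl⟩ := hM
  refine ⟨fun a => c a.1 (a.2 : ℕ), fun a => c a.1 (-((a.2 : ℕ) : ℤ)), ?_⟩
  unfold BT
  congr 1
  funext i
  ext j k
  simp only [Matrix.of_apply]
  split_ifs with h
  · congr 1
    omega
  · congr 1
    omega

theorem sm_BT {E : Type} [NormedAddCommGroup E] [NormedSpace ℝ E]
    {u v : E → (Σ i : Fin r, Fin (m i)) → ℂ}
    (hu : ∀ a, ContDiff ℝ 1 (fun x => u x a)) (hv : ∀ a, ContDiff ℝ 1 (fun x => v x a)) :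
    Sm (fun x => BT (u x) (v x)) := by
  rintro ⟨i, j⟩ ⟨i', k⟩
  by_cases h : i = i'
  · subst h
    simp only [BT, Matrix.blockDiagonal'_apply_eq, Matrix.of_apply]
    split_ifs
    · exact hu _
    · exact hv _
  · simp only [BT, Matrix.blockDiagonal'_apply_ne _ _ _ h]
    exact contDiff_const

end toeplitz

/-- parameter space -/
abbrev Par {r : ℕ} (m : Fin r → ℕ) : Type := (Fin 6 → (Σ i : Fin r, Fin (m i)) → ℂ) × ℂ

/-- the invariants as functions of the parameters -/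
noncomputable def F {r : ℕ} (m : Fin r → ℕ) {κ : Type} (p p' : κ → Polynomial ℂ) (x : Par m) :
    κ × κ → ℝ := fun ij =>
  (Matrix.trace
    (Polynomial.aeval ((x.2 • (BT (x.1 0) (x.1 1)).adjugate) * BT (x.1 2) (x.1 3)) (p ij.1) *
      ((x.2 • (BT (x.1 0) (x.1 1)).adjugate) * BT (x.1 4) (x.1 5)) *
      Polynomial.aeval ((x.2 • (BT (x.1 0) (x.1 1)).adjugate) * BT (x.1 2) (x.1 3)) (p' ij.2) *
      ((x.2 • (BT (x.1 0) (x.1 1)).adjugate) * BT (x.1 4) (x.1 5)))).re

theorem contDiff_F {r : ℕ} (m : Fin r → ℕ) {κ : Type} [Fintype κ] (p p' : κ → Polynomial ℂ) :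
    ContDiff ℝ 1 (F m p p') := by
  have hB : ∀ a b : Fin 6, Sm (fun x : Par m => BT (x.1 a) (x.1 b)) := fun a b =>
    sm_BT (fun _ => by fun_prop) (fun _ => by fun_prop)
  have hK : Sm (fun x : Par m => x.2 • (BT (x.1 0) (x.1 1)).adjugate) :=
    Sm.smul (by fun_prop) (hB 0 1).adjugate
  have hX := hK.mul (hB 2 3)
  have hY := hK.mul (hB 4 5)
  rw [contDiff_pi]
  intro ij
  have := ((((hX.aeval (p ij.1)).mul hY).mul (hX.aeval (p' ij.2))).mul hY).trace
  exact Complex.reCLM.contDiff.comp this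

theorem finrank_par {r : ℕ} (m : Fin r → ℕ) :
    Module.finrank ℝ (Par m) = 12 * (∑ i, m i) + 2 := by
  simp [Par, Module.finrank_prod, Module.finrank_pi_fintype, Complex.finrank_real_complex,
    Fintype.card_sigma]
  ring

/-- a positive array missed by all the parametrisations -/
theorem exists_missed {κ : Type} [Fintype κ] (p p' : κ → Polynomial ℂ) (N : ℕ)
    (hN : 12 * N + 2 < Fintype.card κ * Fintype.card κ) :
    ∃ q : κ × κ → ℝ, (∀ ij, 0 < q ij) ∧
      ∀ (r : ℕ) (m : Fin r → ℕ), ∑ i, m i = N → ∀ x : Par m, F m p p' x ≠ q := by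
  let I := {t : Σ r : ℕ, Fin r → ℕ // ∑ i, t.2 i = N}
  have hdim : dimH (⋃ t : I, Set.range (F t.1.2 p p')) < Module.finrank ℝ (κ × κ → ℝ) := by
    rw [dimH_iUnion]
    have h1 : (⨆ t : I, dimH (Set.range (F t.1.2 p p'))) ≤ ((12 * N + 2 : ℕ) : ENNReal) := by
      refine iSup_le fun t => ?_
      have := (contDiff_F t.1.2 p p').dimH_range_le
      rw [finrank_par, t.2] at this
      exact this
    refine lt_of_le_of_lt h1 ?_
    have : Module.finrank ℝ (κ × κ → ℝ) = Fintype.card κ * Fintype.card κ := by simp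
    rw [this]
    exact_mod_cast hN
  have hd := dense_compl_of_dimH_lt_finrank hdim
  have hopen : IsOpen {q : κ × κ → ℝ | ∀ ij, 0 < q ij} := by
    have : {q : κ × κ → ℝ | ∀ ij, 0 < q ij} = ⋂ ij, {q | 0 < q ij} := by
      ext q
      simp
    rw [this]
    exact isOpen_iInter_of_finite fun ij => isOpen_lt continuous_const (continuous_apply ij)
  obtain ⟨q, hq1, hq2⟩ := hd.exists_mem_open hopen ⟨fun _ => 1, fun _ => one_pos⟩
  refine ⟨q, hq2, fun r m hm x hx => hq1 ?_⟩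
  exact Set.mem_iUnion.mpr ⟨⟨⟨r, m⟩, hm⟩, x, hx⟩

end Pool.Agent.H454Z.TTO
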