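import Pool.Agent.H454Z.TTO1

set_option autoImplicit false

namespace Pool.Agent.H454Z.TTO

open Matrix

theorem exists_nonroot (P : Polynomial ℂ) (hP : P ≠ 0) :
    ∃ c ∈ Set.Icc (0 : ℝ) (2 * Real.pi), P.eval (Complex.exp ((c : ℂ) * Complex.I)) ≠ 0 := by
  by_contra h
  push Not at h
  apply hP
  apply Polynomial.eq_zero_of_infinite_isRoot
  have hinj : Set.InjOn (fun c : ℝ => Complex.exp ((c : ℂ) * Complex.I)) (Set.Icc 0 Real.pi) := by
    intro x hx y hy hxy
    apply Real.injOn_cos hx hy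
    have := congrArg Complex.re hxy
    simpa [Complex.exp_ofReal_mul_I_re] using this
  have hinf := (Set.Icc_infinite Real.pi_pos).image hinj
  refine hinf.mono ?_
  rintro _ ⟨c, hc, rfl⟩
  exact h c ⟨hc.1, by linarith [hc.2, Real.pi_pos]⟩

/-- the Gram matrix of the monomials for a positive continuous weight is invertible -/
theorem gram_isUnit (m : ℕ) (w : ℝ → ℝ) (hw : Continuous w) (hpos : ∀ t, 0 < w t) :
    IsUnit (Matrix.of (fun (j k : Fin m) =>
      ∫ t in (0:ℝ)..(2 * Real.pi),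
        Complex.exp ((((k : ℕ) : ℂ) - ((j : ℕ) : ℂ)) * (t : ℂ) * Complex.I) / ((w t : ℝ) : ℂ))) := by
  rw [← Matrix.mulVec_injective_iff_isUnit]
  set B := Matrix.of (fun (j k : Fin m) =>
      ∫ t in (0:ℝ)..(2 * Real.pi),
        Complex.exp ((((k : ℕ) : ℂ) - ((j : ℕ) : ℂ)) * (t : ℂ) * Complex.I) / ((w t : ℝ) : ℂ)) with hB
  suffices h : ∀ v : Fin m → ℂ, B *ᵥ v = 0 → v = 0 by
    intro v v' hv
    have := h (v - v') (by rw [Matrix.mulVec_sub, hv, sub_self])
    exact sub_eq_zero.mp this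
  intro v hv
  by_contra hne
  let P : Polynomial ℂ := ∑ k : Fin m, Polynomial.monomial (k : ℕ) (v k)
  have hP : P ≠ 0 := by
    intro h0
    apply hne
    funext k
    have := congrArg (fun Q => Polynomial.coeff Q (k : ℕ)) h0
    simp only [P, Polynomial.finsetSum_coeff, Polynomial.coeff_monomial, Fin.val_inj,
      Finset.sum_ite_eq', Finset.mem_univ, if_true, Polynomial.coeff_zero] at this
    exact this
  have hPe : ∀ z : ℂ, P.eval z = ∑ k : Fin m, v k * z ^ (k : ℕ) := by
    intro z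
    simp [P, Polynomial.eval_finsetSum]
  let g : ℝ → ℝ := fun t => Complex.normSq (P.eval (Complex.exp ((t : ℂ) * Complex.I))) / w t
  have hgc : Continuous g := by
    apply Continuous.div _ hw (fun t => (hpos t).ne')
    apply Complex.continuous_normSq.comp
    exact P.continuous.comp (by fun_prop)
  have hgpos : 0 < ∫ t in (0:ℝ)..(2 * Real.pi), g t := by
    apply intervalIntegral.integral_pos (by linarith [Real.pi_pos]) hgc.continuousOn
    · intro x _
      exact div_nonneg (Complex.normSq_nonneg _) (hpos x).le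
    · obtain ⟨c, hc, hc'⟩ := exists_nonroot P hP
      exact ⟨c, hc, div_pos (Complex.normSq_pos.mpr hc') (hpos c)⟩
  have hwc : Continuous (fun t : ℝ => ((w t : ℝ) : ℂ)) := Complex.continuous_ofReal.comp hw
  have hw0 : ∀ t, ((w t : ℝ) : ℂ) ≠ 0 := fun t => by exact_mod_cast (hpos t).ne'
  have hint : ∀ j k : Fin m, IntervalIntegrable (fun t : ℝ => star (v j) *
      (Complex.exp ((((k : ℕ) : ℂ) - ((j : ℕ) : ℂ)) * (t : ℂ) * Complex.I) / ((w t : ℝ) : ℂ) * v k))
      MeasureTheory.volume 0 (2 * Real.pi) := by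
    intro j k
    apply Continuous.intervalIntegrable
    apply continuous_const.mul
    apply Continuous.mul _ continuous_const
    exact Continuous.div (by fun_prop) hwc hw0
  have key : star v ⬝ᵥ (B *ᵥ v) = ((∫ t in (0:ℝ)..(2 * Real.pi), g t : ℝ) : ℂ) := by
    rw [← intervalIntegral.integral_ofReal]
    have : ∀ t : ℝ, ((g t : ℝ) : ℂ) = ∑ j : Fin m, ∑ k : Fin m, star (v j) *
        (Complex.exp ((((k : ℕ) : ℂ) - ((j : ℕ) : ℂ)) * (t : ℂ) * Complex.I) /
          ((w t : ℝ) : ℂ) * v k) := by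
      intro t
      simp only [g]
      push_cast
      rw [Complex.normSq_eq_conj_mul_self, hPe, map_sum, Finset.sum_mul_sum, Finset.sum_div]
      refine Finset.sum_congr rfl fun j _ => ?_
      rw [Finset.sum_div]
      refine Finset.sum_congr rfl fun k _ => ?_
      have e1 : Complex.exp ((((k : ℕ) : ℂ) - ((j : ℕ) : ℂ)) * (t : ℂ) * Complex.I) =
          (starRingEnd ℂ) (Complex.exp ((t : ℂ) * Complex.I) ^ (j : ℕ)) *
            Complex.exp ((t : ℂ) * Complex.I) ^ (k : ℕ) := by
        rw [← Complex.exp_nat_mul, ← Complex.exp_nat_mul, ← Complex.exp_conj, ← Complex.exp_add]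
        congr 1
        simp
        ring
      rw [e1, map_mul]
      simp only [RCLike.star_def]
      ring
    simp only [this]
    have hint2 : ∀ j : Fin m, IntervalIntegrable (fun t : ℝ => ∑ k : Fin m, star (v j) *
        (Complex.exp ((((k : ℕ) : ℂ) - ((j : ℕ) : ℂ)) * (t : ℂ) * Complex.I) /
          ((w t : ℝ) : ℂ) * v k)) MeasureTheory.volume 0 (2 * Real.pi) := by
      intro j
      apply Continuous.intervalIntegrable
      refine continuous_finsetSum _ fun k _ => ?_
      apply continuous_const.mul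
      apply Continuous.mul _ continuous_const
      exact Continuous.div (by fun_prop) hwc hw0
    rw [intervalIntegral.integral_finsetSum (fun j _ => hint2 j)]
    simp only [dotProduct, Matrix.mulVec, hB, Matrix.of_apply, Pi.star_apply]
    refine Finset.sum_congr rfl fun j _ => ?_
    rw [intervalIntegral.integral_finsetSum (fun k _ => hint j k), Finset.mul_sum]
    refine Finset.sum_congr rfl fun k _ => ?_
    rw [intervalIntegral.integral_const_mul, intervalIntegral.integral_mul_const]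
  rw [hv, dotProduct_zero] at key
  have : (∫ t in (0:ℝ)..(2 * Real.pi), g t : ℝ) = 0 := by exact_mod_cast key.symm
  linarith

theorem isUnit_blockDiagonal' {r : ℕ} {m : Fin r → ℕ}
    (B : (i : Fin r) → Matrix (Fin (m i)) (Fin (m i)) ℂ) (hB : ∀ i, IsUnit (B i)) :
    (Matrix.blockDiagonal' B).det ≠ 0 := by
  have h : Matrix.blockDiagonal' B * Matrix.blockDiagonal' (fun i => (B i)⁻¹) = 1 := by
    rw [← Matrix.blockDiagonal'_mul, ← Matrix.blockDiagonal'_one]
    congr 1
    funext i
    exact Matrix.mul_nonsing_inv _ ((Matrix.isUnit_iff_isUnit_det _).mp (hB i))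
  exact (Matrix.isUnit_det_of_right_inverse h).ne_zero

theorem aeval_conj {κ ι : Type} [Fintype κ] [DecidableEq κ] [Fintype ι] [DecidableEq ι]
    (S : Matrix κ ι ℂ) (R : Matrix ι κ ℂ) (h1 : S * R = 1) (h2 : R * S = 1)
    (X : Matrix κ κ ℂ) (p : Polynomial ℂ) :
    Polynomial.aeval (R * X * S) p = R * Polynomial.aeval X p * S := by
  have hpow : ∀ n : ℕ, (R * X * S) ^ n = R * X ^ n * S := by
    intro n
    induction n with
    | zero => simp [h2]
    | succ n ih =>
      rw [pow_succ, ih, pow_succ]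
      calc R * X ^ n * S * (R * X * S) = R * X ^ n * (S * R) * X * S := by
            simp only [Matrix.mul_assoc]
        _ = R * (X ^ n * X) * S := by rw [h1]; simp only [Matrix.mul_assoc, Matrix.mul_one]
  induction p using Polynomial.induction_on' with
  | add p q hp hq => simp [hp, hq, Matrix.mul_add, Matrix.add_mul]
  | monomial n a =>
    simp only [Polynomial.aeval_monomial, Algebra.algebraMap_eq_smul_one, hpow, smul_mul_assoc,
      one_mul, Matrix.mul_smul, Matrix.smul_mul]

theorem trace_conj {κ ι : Type} [Fintype κ] [DecidableEq κ] [Fintype ι] [DecidableEq ι]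
    (S : Matrix κ ι ℂ) (R : Matrix ι κ ℂ) (h1 : S * R = 1) (h2 : R * S = 1)
    (X Y : Matrix κ κ ℂ) (p p' : Polynomial ℂ) :
    Matrix.trace (Polynomial.aeval (R * X * S) p * (R * Y * S) *
      Polynomial.aeval (R * X * S) p' * (R * Y * S)) =
    Matrix.trace (Polynomial.aeval X p * Y * Polynomial.aeval X p' * Y) := by
  rw [aeval_conj S R h1 h2, aeval_conj S R h1 h2]
  generalize Polynomial.aeval X p = P
  generalize Polynomial.aeval X p' = P'
  calc Matrix.trace (R * P * S * (R * Y * S) * (R * P' * S) * (R * Y * S))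
      = Matrix.trace (R * (P * (S * R) * Y * (S * R) * P' * (S * R) * Y * S)) := by
        simp only [Matrix.mul_assoc]
    _ = Matrix.trace ((P * (S * R) * Y * (S * R) * P' * (S * R) * Y * S) * R) :=
        Matrix.trace_mul_comm _ _
    _ = Matrix.trace (P * (S * R) * Y * (S * R) * P' * (S * R) * Y * (S * R)) := by
        simp only [Matrix.mul_assoc]
    _ = _ := by simp only [h1, Matrix.mul_one]

theorem aeval_diagonal {κ : Type} [Fintype κ] [DecidableEq κ] (d : κ → ℂ) (p : Polynomial ℂ) :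
    Polynomial.aeval (Matrix.diagonal d) p = Matrix.diagonal (fun s => p.eval (d s)) := by
  induction p using Polynomial.induction_on' with
  | add p q hp hq => simp [hp, hq, Matrix.diagonal_add]
  | monomial n a =>
    simp only [Polynomial.aeval_monomial, Algebra.algebraMap_eq_smul_one, smul_mul_assoc,
      one_mul, Matrix.diagonal_pow, Polynomial.eval_monomial]
    rw [← Matrix.diagonal_smul]
    rfl

/-- the main reduction: if the pair of Hermitian matrices `X`, `Y` is carried by `S` to block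
Toeplitz form, its invariants are values of `F`. -/
theorem exists_param {κ : Type} [Fintype κ] [DecidableEq κ] {r : ℕ} {m : Fin r → ℕ}
    (hc : Fintype.card κ = ∑ i, m i)
    (S : Matrix κ (Σ i : Fin r, Fin (m i)) ℂ) (X Y : Matrix κ κ ℂ) (hX : Xᴴ = X) (hY : Yᴴ = Y)
    (hG : IsBT (Sᴴ * S)) (hdet : (Sᴴ * S).det ≠ 0)
    (hT : IsBT (Sᴴ * (X + Complex.I • Y) * S)) {τ : Type} (p p' : τ → Polynomial ℂ) :
    ∃ x : Par m, F m p p' x = fun ij =>
      (Matrix.trace (Polynomial.aeval X (p ij.1) * Y * Polynomial.aeval X (p' ij.2) * Y)).re := by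
  have hT' := hT.ct
  have e0 : (Sᴴ * (X + Complex.I • Y) * S)ᴴ = Sᴴ * (X - Complex.I • Y) * S := by
    simp only [Matrix.conjTranspose_mul, Matrix.conjTranspose_add, Matrix.conjTranspose_smul,
      hX, hY, Matrix.conjTranspose_conjTranspose, Matrix.mul_assoc]
    simp [sub_eq_add_neg]
  rw [e0] at hT'
  have hXb : IsBT (Sᴴ * X * S) := by
    have := (hT.add hT').smul (1 / 2)
    convert this using 1
    rw [← Matrix.add_mul, ← Matrix.mul_add, ← Matrix.smul_mul, ← Matrix.mul_smul]
    congr 2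
    ext a b
    simp
    ring
  have hYb : IsBT (Sᴴ * Y * S) := by
    have := (hT.smul (-Complex.I / 2)).add (hT'.smul (Complex.I / 2))
    convert this using 1
    rw [← Matrix.smul_mul, ← Matrix.mul_smul, ← Matrix.smul_mul, ← Matrix.mul_smul,
      ← Matrix.add_mul, ← Matrix.mul_add]
    congr 2
    ext a b
    simp
    linear_combination (Y a b) * Complex.I_mul_I
  obtain ⟨u0, u1, h0⟩ := hG.param
  obtain ⟨u2, u3, h2⟩ := hXb.param
  obtain ⟨u4, u5, h4⟩ := hYb.param
  let K := (Sᴴ * S).det⁻¹ • (Sᴴ * S).adjugate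
  have hK : K * (Sᴴ * S) = 1 := by
    simp only [K, Matrix.smul_mul, Matrix.adjugate_mul, smul_smul, inv_mul_cancel₀ hdet, one_smul]
  have hRS : (K * Sᴴ) * S = 1 := by rw [Matrix.mul_assoc, hK]
  have hcard : Fintype.card (Σ i : Fin r, Fin (m i)) = Fintype.card κ := by
    simp [Fintype.card_sigma, hc]
  have hSR : S * (K * Sᴴ) = 1 :=
    (Matrix.mul_eq_one_comm_of_equiv (Fintype.equivOfCardEq hcard)).mp hRS
  refine ⟨(![u0, u1, u2, u3, u4, u5], (Sᴴ * S).det⁻¹), ?_⟩
  funext ij
  have f0 : BT (![u0, u1, u2, u3, u4, u5] 0) (![u0, u1, u2, u3, u4, u5] 1) = Sᴴ * S := h0.symm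
  have f2 : BT (![u0, u1, u2, u3, u4, u5] 2) (![u0, u1, u2, u3, u4, u5] 3) = Sᴴ * X * S := h2.symm
  have f4 : BT (![u0, u1, u2, u3, u4, u5] 4) (![u0, u1, u2, u3, u4, u5] 5) = Sᴴ * Y * S := h4.symm
  simp only [F, f0, f2, f4]
  have g1 : ∀ Z : Matrix κ κ ℂ, ((Sᴴ * S).det⁻¹ • (Sᴴ * S).adjugate) * (Sᴴ * Z * S) =
      (K * Sᴴ) * Z * S := by
    intro Z
    simp only [K, Matrix.mul_assoc]
  rw [g1, g1, trace_conj S (K * Sᴴ) hSR hRS]

/-- the real symmetric matrix with prescribed off-diagonal block -/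
noncomputable def Hm {N : ℕ} (q : Fin N × Fin N → ℝ) : Matrix (Fin (N + N)) (Fin (N + N)) ℂ :=
  (Matrix.fromBlocks 0 (Matrix.of fun i j => ((Real.sqrt (q (i, j) / 2) : ℝ) : ℂ))
    (Matrix.of fun j i => ((Real.sqrt (q (i, j) / 2) : ℝ) : ℂ)) 0).submatrix
    finSumFinEquiv.symm finSumFinEquiv.symm

theorem Hm_transpose {N : ℕ} (q : Fin N × Fin N → ℝ) : (Hm q)ᵀ = Hm q := by
  unfold Hm
  rw [Matrix.transpose_submatrix, Matrix.fromBlocks_transpose]
  rfl

theorem Hm_ct {N : ℕ} (q : Fin N × Fin N → ℝ) : (Hm q)ᴴ = Hm q := by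
  unfold Hm
  rw [Matrix.conjTranspose_submatrix, Matrix.fromBlocks_conjTranspose]
  congr 2
  · simp
  · ext a b
    simp
  · ext a b
    simp
  · simp

theorem Hm_apply {N : ℕ} (q : Fin N × Fin N → ℝ) (i j : Fin N) :
    Hm q (Fin.castAdd N i) (Fin.natAdd N j) = ((Real.sqrt (q (i, j) / 2) : ℝ) : ℂ) := by
  unfold Hm
  rw [Matrix.submatrix_apply, finSumFinEquiv_symm_apply_castAdd, finSumFinEquiv_symm_apply_natAdd]
  rfl

theorem Hm_apply' {N : ℕ} (q : Fin N × Fin N → ℝ) (i j : Fin N) :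
    Hm q (Fin.natAdd N j) (Fin.castAdd N i) = ((Real.sqrt (q (i, j) / 2) : ℝ) : ℂ) := by
  unfold Hm
  rw [Matrix.submatrix_apply, finSumFinEquiv_symm_apply_castAdd, finSumFinEquiv_symm_apply_natAdd]
  rfl

/-- the nodes -/
def nodes (n : ℕ) : Fin n → ℂ := fun a => ((a : ℕ) : ℂ)

theorem nodes_inj (n : ℕ) : Function.Injective (nodes n) := by
  intro a b h
  have : (a : ℕ) = b := by
    simpa [nodes] using h
  exact Fin.ext this

/-- Lagrange polynomials -/
noncomputable def lag {n : ℕ} (a : Fin n) : Polynomial ℂ := Lagrange.basis Finset.univ (nodes n) a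

theorem eval_lag {n : ℕ} (a b : Fin n) : (lag a).eval (nodes n b) = if b = a then 1 else 0 := by
  unfold lag
  split_ifs with h
  · subst h
    exact Lagrange.eval_basis_self (nodes_inj n).injOn (Finset.mem_univ _)
  · exact Lagrange.eval_basis_of_ne (Ne.symm h) (Finset.mem_univ _)

theorem trace_val {n : ℕ} (H : Matrix (Fin n) (Fin n) ℂ) (a b : Fin n) :
    Matrix.trace (Polynomial.aeval (Matrix.diagonal (Sum.elim (nodes n) (nodes n))) (lag a) *
      Matrix.fromBlocks H 0 0 H *
      Polynomial.aeval (Matrix.diagonal (Sum.elim (nodes n) (nodes n))) (lag b) *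
      Matrix.fromBlocks H 0 0 H) = 2 * (H a b * H b a) := by
  have hd : ∀ c : Fin n, Polynomial.aeval (Matrix.diagonal (Sum.elim (nodes n) (nodes n))) (lag c) =
      Matrix.fromBlocks (Matrix.diagonal (fun s => if s = c then (1 : ℂ) else 0)) 0 0
        (Matrix.diagonal (fun s => if s = c then (1 : ℂ) else 0)) := by
    intro c
    rw [aeval_diagonal, Matrix.fromBlocks_diagonal]
    congr 1
    funext s
    rcases s with s | s <;> simp [eval_lag]
  rw [hd, hd]
  simp only [Matrix.fromBlocks_multiply, Matrix.mul_zero, Matrix.zero_mul, add_zero, zero_add]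
  have htr : ∀ Z : Matrix (Fin n) (Fin n) ℂ,
      Matrix.trace (Matrix.fromBlocks Z 0 0 Z) = Matrix.trace Z + Matrix.trace Z := by
    intro Z
    simp [Matrix.trace, Fintype.sum_sum_type]
  rw [htr]
  have : Matrix.trace (Matrix.diagonal (fun s => if s = a then (1 : ℂ) else 0) * H *
      Matrix.diagonal (fun s => if s = b then (1 : ℂ) else 0) * H) = H a b * H b a := by
    simp [Matrix.trace, Matrix.mul_apply, Matrix.diagonal_apply]
  rw [this]
  ring

theorem exists_bad : ∃ A : Matrix (Fin (49 + 49)) (Fin (49 + 49)) ℂ,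
    ∀ (r : ℕ) (m : Fin r → ℕ), ∑ i, m i = 2 * (49 + 49) →
      ∀ S : Matrix (Fin (49 + 49) ⊕ Fin (49 + 49)) (Σ i : Fin r, Fin (m i)) ℂ,
        IsBT (Sᴴ * S) → (Sᴴ * S).det ≠ 0 →
        ¬ IsBT (Sᴴ * Matrix.fromBlocks A 0 0 Aᵀ * S) := by
  obtain ⟨q, hq, hmiss⟩ := exists_missed (κ := Fin 49)
    (fun i => lag (Fin.castAdd 49 i)) (fun j => lag (Fin.natAdd 49 j)) (2 * (49 + 49)) (by simp)
  refine ⟨Matrix.diagonal (nodes _) + Complex.I • Hm q, fun r m hm S hG hdet hT => ?_⟩
  have e : Matrix.fromBlocks (Matrix.diagonal (nodes _) + Complex.I • Hm q) 0 0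
      (Matrix.diagonal (nodes _) + Complex.I • Hm q)ᵀ =
      Matrix.diagonal (Sum.elim (nodes _) (nodes _)) +
        Complex.I • Matrix.fromBlocks (Hm q) 0 0 (Hm q) := by
    rw [Matrix.transpose_add, Matrix.transpose_smul, Hm_transpose, Matrix.diagonal_transpose,
      ← Matrix.fromBlocks_diagonal, Matrix.fromBlocks_smul, Matrix.fromBlocks_add]
    simp
  rw [e] at hT
  have hX : (Matrix.diagonal (Sum.elim (nodes (49 + 49)) (nodes (49 + 49))))ᴴ =
      Matrix.diagonal (Sum.elim (nodes (49 + 49)) (nodes (49 + 49))) := by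
    rw [Matrix.diagonal_conjTranspose]
    congr 1
    funext s
    rcases s with s | s <;> simp [nodes]
  have hY : (Matrix.fromBlocks (Hm q) 0 0 (Hm q))ᴴ = Matrix.fromBlocks (Hm q) 0 0 (Hm q) := by
    rw [Matrix.fromBlocks_conjTranspose, Hm_ct]
    simp
  obtain ⟨x, hx⟩ := exists_param (by simp [hm]) S _ _ hX hY hG hdet hT
    (fun i : Fin 49 => lag (Fin.castAdd 49 i)) (fun j => lag (Fin.natAdd 49 j))
  apply hmiss r m hm x
  rw [hx]
  funext ⟨i, j⟩
  simp only [trace_val, Hm_apply, Hm_apply']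
  have h0 : 0 ≤ q (i, j) / 2 := by linarith [hq (i, j)]
  rw [← Complex.ofReal_mul, Real.mul_self_sqrt h0]
  simp
  ring

end Pool.Agent.H454Z.TTO
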